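import Pool.Agent.TTC.StmtsG
import Pool.Agent.Helper75_TTC.LO6

set_option autoImplicit false

/-!
# Squad TTC, row LO7: the place is good for the odd model (helper35, after LO6 of helper75)
-/

namespace Pool.Agent.TTC.H35

open Polynomial NumberField Pool.Agent.TTC
open Pool.Agent.TTC.H62 (v_int_le v_int_eq res_eq discr_map5)
open Pool.Agent.TTC.H75 (Ov mv mv_max om_monic om_deg root_le bez3)

/-- the proof, for a given residue field -/
theorem core7 (hN : Na6Stmt) (hN7 : Na7Stmt) (hC : Cr7Stmt) (hO : Om7Stmt) (K : Type) [Field K]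
    [NumberField K]
    (v : FinitePlace K) (a : Fin 7 → ℤ) (α : K) (p j m : ℕ) (hp : p.Prime) (hv : v (p : K) < 1)
    (hd : (p : ℤ) ∣ d6 a) (he : ¬ (p : ℤ) ∣ e7 j m a)
    (hα : ((sext a).map (Int.castRingHom K)).eval α = 0)
    (hα' : v ((derivative ((sext a).map (Int.castRingHom K))).eval α) = 1)
    (hna : IsNonarchimedean v.val) (κ : Type) [Field κ] (π : Ov v.val hna →+* κ)
    (hsur : Function.Surjective π) (hker : ∀ x : Ov v.val hna, π x = 0 ↔ v.val x.1 < 1) :
    KDD.CubeFree v.val (om (fun i => ((a i : ℤ) : K)) α) ∧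
      v (discr (om (fun i => ((a i : ℤ) : K)) α)) < 1 := by
  have hi : ∀ n : ℤ, v.val (n : K) ≤ 1 := fun n => v_int_le K v n
  have hi1 : ∀ n : ℤ, ¬ (p : ℤ) ∣ n → v.val (n : K) = 1 := fun n hn => v_int_eq K v p hp hv n hn
  have he6 : ∀ n : ℤ, n ∣ e7 j m a → ¬ (p : ℤ) ∣ n := fun n hn h => he (h.trans hn)
  have p6 : ¬ (p : ℤ) ∣ 6 :=
    he6 6 ⟨a 0 * ((crit a).coeff 1 + (j : ℤ) * (crit a).coeff 2) * r6 m a, by unfold e7; ring⟩
  have p2 : ¬ (p : ℤ) ∣ 2 :=
    he6 2 ⟨3 * (a 0 * ((crit a).coeff 1 + (j : ℤ) * (crit a).coeff 2) * r6 m a), by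
      unfold e7; ring⟩
  have pa : ¬ (p : ℤ) ∣ a 0 :=
    he6 (a 0) ⟨6 * ((crit a).coeff 1 + (j : ℤ) * (crit a).coeff 2) * r6 m a, by unfold e7; ring⟩
  -- the sextic over K
  have sK : sext (fun i => ((a i : ℤ) : K)) = (sext a).map (Int.castRingHom K) :=
    (hN ℤ K (Int.castRingHom K) a).1
  rw [← sK] at hα hα'
  have hα1 : v.val α ≤ 1 :=
    root_le v.val hna _ (fun i => hi (a i)) (hi1 (a 0) pa) α hα
  set ρ : Ov v.val hna →+* AlgebraicClosure κ :=
    (algebraMap κ (AlgebraicClosure κ)).comp π with hρ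
  have hρ0 : ∀ x : Ov v.val hna, ρ x = 0 ↔ v.val x.1 < 1 := by
    intro x
    rw [← hker x]
    constructor
    · intro h
      exact (algebraMap κ (AlgebraicClosure κ)).injective (by rw [map_zero]; exact h)
    · intro h
      show (algebraMap κ (AlgebraicClosure κ)) (π x) = 0
      rw [h, map_zero]
  set aO : Fin 7 → Ov v.val hna := fun i => ((a i : ℤ) : Ov v.val hna) with haO
  set αO : Ov v.val hna := ⟨α, hα1⟩ with hαO
  have aOK : (fun i => (Ov v.val hna).subtype (aO i)) = fun i => ((a i : ℤ) : K) := by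
    funext i
    exact map_intCast (Ov v.val hna).subtype (a i)
  have aOk : (fun i => ρ (aO i)) = fun i => (Int.castRingHom (AlgebraicClosure κ)) (a i) := by
    funext i
    exact map_intCast ρ (a i)
  obtain ⟨s1, -, -, o1⟩ := hN (Ov v.val hna) K (Ov v.val hna).subtype aO
  obtain ⟨s2, -, -, o2⟩ := hN (Ov v.val hna) (AlgebraicClosure κ) ρ aO
  obtain ⟨-, d3, -, -⟩ := hN ℤ (AlgebraicClosure κ) (Int.castRingHom _) a
  have e3 := hN7 ℤ (AlgebraicClosure κ) (Int.castRingHom _) a j m
  have o1' := o1 αO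
  have o2' := o2 αO
  rw [aOK] at s1 o1'
  have hint : ∀ n : ℤ, ((n : AlgebraicClosure κ) = 0 ↔ v.val (n : K) < 1) := by
    intro n
    have h1 := hρ0 (n : Ov v.val hna)
    rw [map_intCast] at h1
    have h2 : ((n : Ov v.val hna) : Ov v.val hna).1 = (n : K) :=
      map_intCast (Ov v.val hna).subtype n
    rw [h2] at h1
    exact h1
  have hne : ∀ n : ℤ, ¬ (p : ℤ) ∣ n → (n : AlgebraicClosure κ) ≠ 0 := by
    intro n hn h
    have h1 := (hint n).1 h
    rw [hi1 n hn] at h1
    exact lt_irrefl _ h1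
  have hp0 : ((p : ℤ) : AlgebraicClosure κ) = 0 := by
    rw [hint]
    have : ((p : ℤ) : K) = (p : K) := Int.cast_natCast p
    rw [this]
    exact hv
  have c6 : (6 : AlgebraicClosure κ) ≠ 0 := by
    have := hne 6 p6
    exact_mod_cast this
  have ca : ρ (aO 0) ≠ 0 := by
    have e : ρ (aO 0) = ((a 0 : ℤ) : AlgebraicClosure κ) := map_intCast ρ (a 0)
    rw [e]
    exact hne _ pa
  have cd : d6 (fun i => ρ (aO i)) = 0 := by
    rw [aOk, d3]
    obtain ⟨q, hq⟩ := hd
    rw [hq, eq_intCast, Int.cast_mul, hp0, zero_mul]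
  have ce : e7 j m (fun i => ρ (aO i)) ≠ 0 := by
    rw [aOk, e3, eq_intCast]
    exact hne _ he
  have hnode : Dns (sext fun i => ρ (aO i)) :=
    hC.1 (AlgebraicClosure κ) (fun i => ρ (aO i)) j m c6 ca cd ce
  -- the root
  have hF0 : (sext aO).eval αO = 0 := by
    apply Subtype.ext
    have h1 := hα
    rw [s1] at h1
    have h2 : (((sext aO).map (Ov v.val hna).subtype).eval ((Ov v.val hna).subtype αO)) = 0 := h1
    rw [eval_map_apply] at h2
    exact h2
  have hF1 : v.val ((derivative (sext aO)).eval αO).1 = 1 := by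
    have h1 := hα'
    rw [s1, derivative_map] at h1
    have h2 : v (((derivative (sext aO)).map (Ov v.val hna).subtype).eval
      ((Ov v.val hna).subtype αO)) = 1 := h1
    rw [eval_map_apply] at h2
    exact h2
  have hk0 : (sext fun i => ρ (aO i)).eval (ρ αO) = 0 := by
    rw [s2, eval_map_apply, hF0, map_zero]
  have hk1 : (derivative (sext fun i => ρ (aO i))).eval (ρ αO) ≠ 0 := by
    rw [s2, derivative_map, eval_map_apply]
    intro h
    have h1 := (hρ0 _).1 h
    rw [hF1] at h1
    exact lt_irrefl _ h1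
  obtain ⟨t1, t2⟩ := hO (AlgebraicClosure κ) (fun i => ρ (aO i)) (ρ αO) c6 ca hk0 hk1 hnode
  rw [o2'] at t1 t2
  set fO : (Ov v.val hna)[X] := om aO αO with hfO
  have hρπ : ∀ q : (Ov v.val hna)[X], (q.map π).map (algebraMap κ (AlgebraicClosure κ)) =
      q.map ρ := fun q => Polynomial.map_map _ _ _
  have hf : om (fun i => ((a i : ℤ) : K)) α = fO.map (Ov v.val hna).subtype := o1'
  rw [hf]
  obtain ⟨A, B, D, hABD⟩ := bez3 (k := AlgebraicClosure κ) (fO.map π) ((derivative fO).map π)
    ((derivative (derivative fO)).map π) (by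
      intro z hz
      rw [hρπ, hρπ, hρπ, ← derivative_map, ← derivative_map, ← derivative_map] at hz
      exact t1 z hz)
  obtain ⟨A', hA'⟩ := Polynomial.map_surjective π hsur A
  obtain ⟨B', hB'⟩ := Polynomial.map_surjective π hsur B
  obtain ⟨D', hD'⟩ := Polynomial.map_surjective π hsur D
  have hcO : ∀ (q : (Ov v.val hna)[X]) (n : ℕ),
      v.val ((q.map (Ov v.val hna).subtype).coeff n) ≤ 1 := by
    intro q n
    rw [coeff_map]
    exact (q.coeff n).2
  refine ⟨⟨?_, hcO fO, A'.map (Ov v.val hna).subtype, B'.map (Ov v.val hna).subtype,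
    D'.map (Ov v.val hna).subtype, fun n => ⟨hcO A' n, hcO B' n, hcO D' n⟩, fun n => ?_⟩, ?_⟩
  · have h1 := hi1 2 p2
    exact_mod_cast h1
  · have e1 : A'.map (Ov v.val hna).subtype * fO.map (Ov v.val hna).subtype +
        B'.map (Ov v.val hna).subtype * derivative (fO.map (Ov v.val hna).subtype) +
        D'.map (Ov v.val hna).subtype *
          derivative (derivative (fO.map (Ov v.val hna).subtype)) - 1 =
        (A' * fO + B' * derivative fO + D' * derivative (derivative fO) - 1).map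
          (Ov v.val hna).subtype := by
      rw [derivative_map, derivative_map, Polynomial.map_sub, Polynomial.map_add,
        Polynomial.map_add, Polynomial.map_mul, Polynomial.map_mul, Polynomial.map_mul,
        Polynomial.map_one]
    have e2 : (A' * fO + B' * derivative fO + D' * derivative (derivative fO) - 1).map π = 0 := by
      rw [Polynomial.map_sub, Polynomial.map_add, Polynomial.map_add, Polynomial.map_mul,
        Polynomial.map_mul, Polynomial.map_mul, Polynomial.map_one, hA', hB', hD', hABD, sub_self]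
    rw [e1, coeff_map]
    have e3 := congrArg (fun q : κ[X] => q.coeff n) e2
    simp only [coeff_map, coeff_zero] at e3
    exact (hker _).1 e3
  · have hm := om_monic aO αO
    have hdg := om_deg aO αO
    rw [discr_map5 (Ov v.val hna).subtype fO hm hdg]
    have h1 : ρ (discr fO) = 0 := by
      rw [← discr_map5 ρ fO hm hdg]
      have hm' : (fO.map ρ).Monic := hm.map ρ
      have hdg' : (fO.map ρ).natDegree = 5 := by rw [hm.natDegree_map, hdg]
      rw [← res_eq (fO.map ρ) hm' hdg']
      have hd2 : (derivative (fO.map ρ)).natDegree ≤ 4 := by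
        refine (natDegree_derivative_le _).trans ?_
        rw [hdg']
      obtain ⟨P, Q, -, -, hPQ⟩ := exists_mul_add_mul_eq_C_resultant (m := 5) (n := 4)
        (fO.map ρ) (derivative (fO.map ρ)) hdg'.le hd2 (by simp)
      obtain ⟨z, hz1, hz2⟩ := t2
      have h3 := congrArg (Polynomial.eval z) hPQ
      rw [eval_add, eval_mul, eval_mul, hz1, hz2, zero_mul, zero_mul, add_zero, eval_C] at h3
      exact h3.symm
    exact (hρ0 _).1 h1

/-- **Row LO7.** -/
theorem lo7 (hN : Na6Stmt) (hN7 : Na7Stmt) (hC : Cr7Stmt) (hO : Om7Stmt) : Lo7Stmt := by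
  intro K _ _ v a α p j m hp hv hd he hα hα'
  have hna : IsNonarchimedean v.val := fun x y => FinitePlace.add_le v x y
  haveI hmax : (mv v.val hna).IsMaximal := mv_max v.val hna
  letI : Field (Ov v.val hna ⧸ mv v.val hna) := Ideal.Quotient.field _
  exact core7 hN hN7 hC hO K v a α p j m hp hv hd he hα hα' hna (Ov v.val hna ⧸ mv v.val hna)
    (Ideal.Quotient.mk (mv v.val hna)) Ideal.Quotient.mk_surjective
    (fun x => Ideal.Quotient.eq_zero_iff_mem)

end Pool.Agent.TTC.H35
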